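import Pool.Agent.H446.AP7.Top
import Pool.Agent.H446.AP6.GenP

/-!
# Families of complete intersections and double covers
-/

set_option autoImplicit false

namespace Pool.Agent.H446.AP7

open Polynomial Finset
open Pool.Agent.H446.AP6 (ZZ OA OK IsPl TestR isPl_OA OK_le mkO_eq_zero_iff KO aeval_of_mk charP_KO')
open Pool.Agent.Y162.HW (idx topE lin GenPos hwMatrix card_idx)

variable {n r : ℕ}

/-- The product over the equations in `P`. -/
noncomputable def power {R : Type*} [CommRing R] (m : Fin r → ℕ) (p : ℕ) (P : Finset (Fin r))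
    (F : Fin r → MvPolynomial (Fin (n + 1)) R) : MvPolynomial (Fin (n + 1)) R :=
  ∏ j ∈ P, F j ^ ((p - 1) / m j)

lemma map_power {R S : Type*} [CommRing R] [CommRing S] (φ : R →+* S) (m : Fin r → ℕ) (p : ℕ) (P : Finset (Fin r))
    (F : Fin r → MvPolynomial (Fin (n + 1)) R) :
    MvPolynomial.map φ (power m p P F) = power m p P fun j => MvPolynomial.map φ (F j) := by
  unfold power
  rw [map_prod]
  simp only [map_pow]

/-- Some Hasse–Witt matrix is not invertible (has determinant zero). -/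
def NonOrd {R : Type*} [CommRing R] (m d : Fin r → ℕ) (p : ℕ) (F : Fin r → MvPolynomial (Fin (n + 1)) R) : Prop :=
  ∃ (P : Finset (Fin r)) (e : ℕ), ∑ j ∈ P, d j = e + n + 1 ∧ (hasseWitt n e p (power m p P F)).det = 0

/-- The value at `c`. -/
noncomputable def value {R : Type*} [CommRing R] (c : R) (F : MvPolynomial (Fin (n + 1)) ℤ[X]) :
    MvPolynomial (Fin (n + 1)) R := MvPolynomial.map (eval₂RingHom (Int.castRingHom R) c) F

/-- The slope. -/
noncomputable def slope (n : ℕ) (m d k : Fin r → ℕ) : ℝ :=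
  ∑ P : Finset (Fin r), ((∑ j ∈ P, d j - 1).choose n : ℝ) * ∑ j ∈ P, (k j : ℝ) / m j

/-- The product of the determinants of the Hasse–Witt matrices. -/
noncomputable def total (m d : Fin r → ℕ) (p : ℕ) (f : Fin r → MvPolynomial (Fin (n + 1)) ℤ[X]) : ℤ[X] :=
  ∏ P ∈ univ.filter (fun P : Finset (Fin r) => n + 1 ≤ ∑ j ∈ P, d j),
    (hasseWitt n (∑ j ∈ P, d j - n - 1) p (power m p P f)).det

lemma top_power {K : Type*} [CommRing K] (m k : Fin r → ℕ) (p : ℕ) (P : Finset (Fin r))
    {F : Fin r → MvPolynomial (Fin (n + 1)) K[X]} {G : Fin r → MvPolynomial (Fin (n + 1)) K}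
    (h : ∀ j, Top (F j) (G j) (k j)) : Top (power m p P F) (power m p P G) (∑ j ∈ P, (p - 1) / m j * k j) :=
  Top.prod P fun j _ => (h j).pow _

lemma natDegree_total_le (m d k : Fin r → ℕ) (p : ℕ)
    {f : Fin r → MvPolynomial (Fin (n + 1)) ℤ[X]} (hf : ∀ j u, ((f j).coeff u).natDegree ≤ k j) :
    ((total m d p f).natDegree : ℝ) ≤ slope n m d k * p := by
  classical
  -- the leading parts
  have hex : ∀ j, ∃ g : MvPolynomial (Fin (n + 1)) ℤ, Top (f j) g (k j) := by
    intro j
    refine ⟨∑ u ∈ (f j).support, MvPolynomial.monomial u (((f j).coeff u).coeff (k j)), fun u => ⟨hf j u, ?_⟩⟩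
    rw [MvPolynomial.coeff_sum]
    simp only [MvPolynomial.coeff_monomial]
    rw [Finset.sum_ite_eq']
    split_ifs with h
    · rfl
    · rw [MvPolynomial.notMem_support_iff.1 h, coeff_zero]
  choose g hg using hex
  have h1 : (total m d p f).natDegree ≤ ∑ P ∈ univ.filter (fun P : Finset (Fin r) => n + 1 ≤ ∑ j ∈ P, d j),
      (∑ j ∈ P, d j - 1).choose n * ∑ j ∈ P, (p - 1) / m j * k j := by
    unfold total
    refine (natDegree_prod_le _ _).trans (Finset.sum_le_sum fun P hP => ?_)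
    have h2 := natDegree_hasseWitt (∑ j ∈ P, d j - n - 1) p (top_power m k p P hg)
    rw [card_idx, show ∑ j ∈ P, d j - n - 1 + n = ∑ j ∈ P, d j - 1 by
      have := (mem_filter.1 hP).2
      omega] at h2
    exact h2
  have h2 : ((total m d p f).natDegree : ℝ) ≤
      ∑ P ∈ univ.filter (fun P : Finset (Fin r) => n + 1 ≤ ∑ j ∈ P, d j),
        ((∑ j ∈ P, d j - 1).choose n : ℝ) * ∑ j ∈ P, (((p - 1) / m j : ℕ) : ℝ) * k j := by
    have := (Nat.cast_le (α := ℝ)).2 h1
    push_cast at this ⊢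
    exact this
  refine h2.trans ?_
  have h3 : slope n m d k * p = ∑ P : Finset (Fin r),
      ((∑ j ∈ P, d j - 1).choose n : ℝ) * ∑ j ∈ P, (p : ℝ) / m j * k j := by
    unfold slope
    rw [Finset.sum_mul]
    refine Finset.sum_congr rfl fun P _ => ?_
    rw [mul_assoc, Finset.sum_mul]
    congr 1
    refine Finset.sum_congr rfl fun j _ => ?_
    ring
  rw [h3]
  refine (Finset.sum_le_sum fun P _ => ?_).trans (Finset.sum_le_sum_of_subset_of_nonneg (filter_subset _ _)
    fun P _ _ => ?_)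
  · refine mul_le_mul_of_nonneg_left (Finset.sum_le_sum fun j _ => ?_) (Nat.cast_nonneg _)
    refine mul_le_mul_of_nonneg_right ?_ (Nat.cast_nonneg _)
    refine (Nat.cast_div_le).trans ?_
    refine div_le_div_of_nonneg_right ?_ (Nat.cast_nonneg _)
    exact_mod_cast Nat.sub_le p 1
  · positivity

lemma eval_total {R : Type*} [CommRing R] (m d : Fin r → ℕ) (p : ℕ) (f : Fin r → MvPolynomial (Fin (n + 1)) ℤ[X])
    (c : R) : eval₂ (Int.castRingHom R) c (total m d p f) =
      ∏ P ∈ univ.filter (fun P : Finset (Fin r) => n + 1 ≤ ∑ j ∈ P, d j),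
        (hasseWitt n (∑ j ∈ P, d j - n - 1) p (power m p P fun j => value c (f j))).det := by
  rw [← coe_eval₂RingHom, total, map_prod]
  refine Finset.prod_congr rfl fun P _ => ?_
  rw [det_hasseWitt_map, map_power]
  rfl

lemma eval_total_eq_zero {R : Type*} [CommRing R] {m d : Fin r → ℕ} {p : ℕ}
    {f : Fin r → MvPolynomial (Fin (n + 1)) ℤ[X]} {c : R} (h : NonOrd m d p fun j => value c (f j)) :
    eval₂ (Int.castRingHom R) c (total m d p f) = 0 := by
  obtain ⟨P, e, he, h0⟩ := h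
  rw [eval_total]
  refine Finset.prod_eq_zero (i := P) ?_ ?_
  · rw [mem_filter]
    exact ⟨mem_univ _, by omega⟩
  · rw [show ∑ j ∈ P, d j - n - 1 = e by omega]
    exact h0

lemma nonOrd_of_eval {K : Type*} [Field K] {m d : Fin r → ℕ} {p : ℕ}
    {f : Fin r → MvPolynomial (Fin (n + 1)) ℤ[X]} {c : K}
    (h : eval₂ (Int.castRingHom K) c (total m d p f) = 0) : NonOrd m d p fun j => value c (f j) := by
  rw [eval_total, Finset.prod_eq_zero_iff] at h
  obtain ⟨P, hP, h0⟩ := h
  have h1 := (mem_filter.1 hP).2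
  exact ⟨P, _, by omega, h0⟩

/-- The bad places. -/
def BadAt (m d : Fin r → ℕ) (f : Fin r → MvPolynomial (Fin (n + 1)) ℤ[X]) (p : ℕ) (𝔓 : Ideal ZZ) [𝔓.IsPrime]
    (ω : ℂ) : Prop :=
  ∃ h : ω ∈ OK 𝔓 ω, NonOrd m d p fun j =>
    value (Ideal.Quotient.mk (Ideal.span {((p : ℕ) : OK 𝔓 ω)}) ⟨ω, h⟩) (f j)

/-- Some member in characteristic `p` is ordinary. -/
def RegH (m d : Fin r → ℕ) (f : Fin r → MvPolynomial (Fin (n + 1)) ℤ[X]) (p : ℕ) : Prop :=
  ∃ (K : Type) (_ : Field K) (_ : CharP K p) (c : K), ¬ NonOrd m d p fun j => value c (f j)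

theorem testR_hw {κ : ℝ} {m d k : Fin r → ℕ} {f : Fin r → MvPolynomial (Fin (n + 1)) ℤ[X]}
    (hf : ∀ j u, ((f j).coeff u).natDegree ≤ k j) (hκ : slope n m d k ≤ κ) {p : ℕ} (hp : p.Prime)
    {𝔓 : Ideal ZZ} [h𝔓 : 𝔓.IsPrime] (hp𝔓 : ((p : ℕ) : ZZ) ∈ 𝔓) (hreg : RegH m d f p) :
    TestR κ 0 (BadAt m d f p 𝔓) p := by
  classical
  have hfact : Fact p.Prime := ⟨hp⟩
  obtain ⟨K, _, _, c, hne⟩ := hreg
  set b := total m d p f with hb
  have hbp : b.map (Int.castRingHom (ZMod p)) ≠ 0 := by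
    intro h
    apply hne
    refine nonOrd_of_eval ?_
    have h1 : C (p : ℤ) ∣ b := by
      rw [C_dvd_iff_dvd_coeff]
      intro i
      rw [← ZMod.intCast_zmod_eq_zero_iff_dvd]
      have h2 := congrArg (fun q => q.coeff i) h
      simpa only [coeff_map, eq_intCast, coeff_zero] using h2
    obtain ⟨q, hq⟩ := h1
    rw [← hb, hq, eval₂_mul, eval₂_C]
    simp
  obtain ⟨B, hB, hdeg⟩ := exists_degree_eq_of_mem_lifts
    (Polynomial.map_surjective (Int.castRingHom (ZMod p)) (ZMod.ringHom_surjective _) (b.map (Int.castRingHom (ZMod p))))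
  have hnd : B.natDegree = (b.map (Int.castRingHom (ZMod p))).natDegree := natDegree_eq_natDegree hdeg
  refine ⟨hp, OA 𝔓, B, isPl_OA hp hp𝔓, ?_, ?_, ?_⟩
  · intro h
    have h1 : (b.map (Int.castRingHom (ZMod p))).leadingCoeff = 0 := by
      rw [leadingCoeff, ← hnd, ← hB, coeff_map, eq_intCast]
      exact (ZMod.intCast_zmod_eq_zero_iff_dvd _ _).2 h
    exact hbp (leadingCoeff_eq_zero.1 h1)
  · have h1 : (B.natDegree : ℝ) ≤ b.natDegree := by
      have h3 : B.natDegree ≤ b.natDegree := by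
        rw [hnd]
        exact natDegree_map_le
      exact_mod_cast h3
    rw [add_zero]
    refine h1.trans ((natDegree_total_le m d k p hf).trans ?_)
    exact mul_le_mul_of_nonneg_right hκ (Nat.cast_nonneg _)
  · rintro z ⟨hz, hbad⟩
    have h0 := eval_total_eq_zero hbad
    rw [← hb] at h0
    have h2 : C (p : ℤ) ∣ b - B := by
      rw [C_dvd_iff_dvd_coeff]
      intro i
      rw [← ZMod.intCast_zmod_eq_zero_iff_dvd, coeff_sub, Int.cast_sub, sub_eq_zero]
      have h2 := congrArg (fun q => q.coeff i) hB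
      simp only [coeff_map, eq_intCast] at h2
      exact h2.symm
    obtain ⟨q, hq⟩ := h2
    have hch : CharP (KO p (OK 𝔓 z)) p := charP_KO' (isPl_OA hp hp𝔓) (OK_le 𝔓 z)
    have h3 : eval₂ (Int.castRingHom (KO p (OK 𝔓 z)))
        (Ideal.Quotient.mk (Ideal.span {((p : ℕ) : OK 𝔓 z)}) ⟨z, hz⟩) B = 0 := by
      have h4 : B = b - C (p : ℤ) * q := by
        rw [← hq]
        ring
      rw [h4, eval₂_sub, eval₂_mul, eval₂_C]
      erw [h0]
      simp
    obtain ⟨y, hy, hyB⟩ := aeval_of_mk hz h3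
    exact ⟨OK_le _ _ hz, y, OK_le _ _ hy, hyB⟩

/-- The criterion: the member at infinity is ordinary. -/
theorem regH_of_top {m d k : Fin r → ℕ} {f : Fin r → MvPolynomial (Fin (n + 1)) ℤ[X]}
    (hf : ∀ j u, ((f j).coeff u).natDegree ≤ k j) {p : ℕ} {K : Type} [Field K] [hK : CharP K p]
    {g : Fin r → MvPolynomial (Fin (n + 1)) K} (hg : ∀ j u, (g j).coeff u = (((f j).coeff u).coeff (k j) : ℤ))
    (hord : ¬ NonOrd m d p g) : RegH m d f p := by
  classical
  have hinj : Function.Injective (algebraMap K[X] (FractionRing K[X])) := IsFractionRing.injective _ _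
  have hchar : CharP (FractionRing K[X]) p :=
    charP_of_injective_ringHom (f := (algebraMap K[X] (FractionRing K[X])).comp (C : K →+* K[X]))
      (hinj.comp C_injective) p
  refine ⟨FractionRing K[X], inferInstance, hchar, algebraMap K[X] (FractionRing K[X]) X, ?_⟩
  rintro ⟨P, e, he, h0⟩
  apply hord
  refine ⟨P, e, he, ?_⟩
  set F : Fin r → MvPolynomial (Fin (n + 1)) K[X] := fun j => MvPolynomial.map (mapRingHom (Int.castRingHom K)) (f j)
    with hF
  have h9 : eval₂RingHom (Int.castRingHom (FractionRing K[X])) (algebraMap K[X] (FractionRing K[X]) X) =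
      (algebraMap K[X] (FractionRing K[X])).comp (mapRingHom (Int.castRingHom K)) := by
    refine Polynomial.ringHom_ext (fun a => ?_) ?_ <;> simp
  have h1 : (fun j => value (algebraMap K[X] (FractionRing K[X]) X) (f j)) =
      fun j => MvPolynomial.map (algebraMap K[X] (FractionRing K[X])) (F j) := by
    funext j
    rw [hF, value, h9]
    simp only
    rw [MvPolynomial.map_map]
  rw [h1, ← map_power, ← det_hasseWitt_map] at h0
  have hT : ∀ j, Top (F j) (g j) (k j) := by
    intro j u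
    rw [hF]
    simp only
    rw [MvPolynomial.coeff_map, coe_mapRingHom]
    refine ⟨natDegree_map_le.trans (hf j u), ?_⟩
    rw [coeff_map, hg, eq_intCast]
  have h2 := coeff_hasseWitt e p (top_power m k p P hT)
  have h3 : (hasseWitt n e p (power m p P F)).det = 0 := by
    apply hinj
    rw [map_zero]
    exact h0
  rw [← h2, h3, coeff_zero]

/-- Arrangements are ordinary. -/
theorem not_nonOrd_arrangement {m d : Fin r → ℕ} {p : ℕ} (hp : p.Prime) (hm : ∀ j, m j ∣ p - 1)
    {K : Type} [Field K] [CharP K p] (l : (j : Fin r) → Fin (d j) → Fin (n + 1) → K)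
    (hl : ∀ ρ : Fin (n + 1) → (j : Fin r) × Fin (d j), Function.Injective ρ →
      (Matrix.of fun i => l (ρ i).1 (ρ i).2).det ≠ 0) :
    ¬ NonOrd m d p fun j => (∏ c, lin (l j c)) ^ m j := by
  classical
  have hfact : Fact p.Prime := ⟨hp⟩
  rintro ⟨P, e, he, h0⟩
  -- enumerate the linear forms
  have hcard : Fintype.card ((j : P) × Fin (d j)) = e + n + 1 := by
    rw [Fintype.card_sigma, ← he, ← Finset.sum_coe_sort P]
    simp
  let E : Fin (e + n + 1) ≃ (j : P) × Fin (d j) := (Fintype.equivFinOfCardEq hcard).symm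
  have h1 : power m p P (fun j => (∏ c, lin (l j c)) ^ m j) =
      (∏ i : Fin (e + n + 1), lin (l (E i).1 (E i).2)) ^ (p - 1) := by
    unfold power
    have h2 : ∀ j ∈ P, ((∏ c, lin (l j c)) ^ m j) ^ ((p - 1) / m j) = (∏ c, lin (l j c)) ^ (p - 1) := by
      intro j _
      rw [← pow_mul, Nat.mul_div_cancel' (hm j)]
    rw [Finset.prod_congr rfl h2, Finset.prod_pow]
    congr 1
    rw [Equiv.prod_comp E (fun x : (j : P) × Fin (d j) => lin (l x.1 x.2)), Fintype.prod_sigma]
    rw [← Finset.prod_coe_sort P]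
  rw [h1] at h0
  refine Pool.Agent.Y162.HW.det_ne p (fun i => l (E i).1 (E i).2) ?_ h0
  intro s
  have h2 := hl (fun i => ⟨(E (s i)).1, (E (s i)).2⟩) ?_
  · exact h2
  · intro a b hab
    simp only [Sigma.mk.injEq] at hab
    obtain ⟨h3, h4⟩ := hab
    apply s.injective
    apply E.injective
    refine Sigma.ext (Subtype.ext h3) ?_
    exact h4

end Pool.Agent.H446.AP7
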