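import Pool.Graph.R_pool_sql_team_seeded_1acbe0a2.Y162.HW.Det

/-!
# Hasse–Witt matrices of families: degrees and leading coefficients
-/

set_option autoImplicit false

namespace Pool.Agent.H446.AP7

open Polynomial Finset
open Pool.Agent.Y162.HW (idx topE lin GenPos hwMatrix card_idx)

/-- The matrix of the coefficients of `x ^ (p w)` in `x ^ (w') F`, where `w`, `w'` are the exponents of degree
`m + n + 1` with positive entries; the rows and columns are indexed by `w - (1, …, 1)`. -/
noncomputable def hasseWitt {R : Type*} [CommRing R] (n m p : ℕ) (F : MvPolynomial (Fin (n + 1)) R) :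
    Matrix (idx n m) (idx n m) R :=
  Matrix.of fun u v => MvPolynomial.coeff (p • (u : Fin (n + 1) →₀ ℕ) + topE (Fin (n + 1)) p)
    (MvPolynomial.monomial (v : Fin (n + 1) →₀ ℕ) 1 * F)

lemma hasseWitt_map {R S : Type*} [CommRing R] [CommRing S] (φ : R →+* S) (n m p : ℕ)
    (F : MvPolynomial (Fin (n + 1)) R) :
    φ.mapMatrix (hasseWitt n m p F) = hasseWitt n m p (MvPolynomial.map φ F) := by
  ext u v
  simp only [hasseWitt, RingHom.mapMatrix_apply, Matrix.map_apply, Matrix.of_apply, ← MvPolynomial.coeff_map, map_mul,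
    MvPolynomial.map_monomial, map_one]

lemma det_hasseWitt_map {R S : Type*} [CommRing R] [CommRing S] (φ : R →+* S) (n m p : ℕ)
    (F : MvPolynomial (Fin (n + 1)) R) :
    φ (hasseWitt n m p F).det = (hasseWitt n m p (MvPolynomial.map φ F)).det := by
  rw [RingHom.map_det, hasseWitt_map]

section top

variable {σ : Type*} {K : Type*} [CommRing K]

/-- `F` has degree at most `k` in the parameter, with the leading part `G`. -/
def Top (F : MvPolynomial σ K[X]) (G : MvPolynomial σ K) (k : ℕ) : Prop :=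
  ∀ u, (F.coeff u).natDegree ≤ k ∧ (F.coeff u).coeff k = G.coeff u

lemma Top.mul {F F' : MvPolynomial σ K[X]} {G G' : MvPolynomial σ K} {k k' : ℕ} (h : Top F G k) (h' : Top F' G' k') :
    Top (F * F') (G * G') (k + k') := by
  classical
  intro u
  rw [MvPolynomial.coeff_mul, MvPolynomial.coeff_mul]
  constructor
  · refine natDegree_sum_le_of_forall_le _ _ fun x _ => ?_
    exact natDegree_mul_le.trans (add_le_add (h x.1).1 (h' x.2).1)
  · rw [finsetSum_coeff]
    refine Finset.sum_congr rfl fun x _ => ?_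
    rw [coeff_mul_add_eq_of_natDegree_le (h x.1).1 (h' x.2).1, (h x.1).2, (h' x.2).2]

lemma Top.one : Top (1 : MvPolynomial σ K[X]) 1 0 := by
  classical
  intro u
  rw [MvPolynomial.coeff_one, MvPolynomial.coeff_one]
  split_ifs <;> simp

lemma Top.pow {F : MvPolynomial σ K[X]} {G : MvPolynomial σ K} {k : ℕ} (h : Top F G k) (a : ℕ) :
    Top (F ^ a) (G ^ a) (a * k) := by
  induction a with
  | zero =>
    rw [pow_zero, pow_zero, zero_mul]
    exact Top.one
  | succ a ih =>
    rw [pow_succ, pow_succ, add_mul, one_mul]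
    exact ih.mul h

lemma Top.prod {ι : Type*} (s : Finset ι) {F : ι → MvPolynomial σ K[X]} {G : ι → MvPolynomial σ K} {k : ι → ℕ}
    (h : ∀ i ∈ s, Top (F i) (G i) (k i)) : Top (∏ i ∈ s, F i) (∏ i ∈ s, G i) (∑ i ∈ s, k i) := by
  classical
  induction s using Finset.induction_on with
  | empty =>
    rw [prod_empty, prod_empty, sum_empty]
    exact Top.one
  | insert a s ha ih =>
    rw [prod_insert ha, prod_insert ha, sum_insert ha]
    exact (h a (mem_insert_self _ _)).mul (ih fun i hi => h i (mem_insert_of_mem hi))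

lemma Top.monomial (v : σ →₀ ℕ) : Top (MvPolynomial.monomial v (1 : K[X])) (MvPolynomial.monomial v 1) 0 := by
  classical
  intro u
  rw [MvPolynomial.coeff_monomial, MvPolynomial.coeff_monomial]
  split_ifs <;> simp

end top

lemma natDegree_det_le {K : Type*} [CommRing K] {ι : Type*} [Fintype ι] [DecidableEq ι] (M : Matrix ι ι K[X]) (D : ℕ)
    (h : ∀ i j, (M i j).natDegree ≤ D) : M.det.natDegree ≤ Fintype.card ι * D := by
  rw [Matrix.det_apply]
  refine natDegree_sum_le_of_forall_le _ _ fun s _ => ?_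
  refine (natDegree_smul_le _ _).trans ?_
  refine (natDegree_prod_le _ _).trans ?_
  calc ∑ i, (M (s i) i).natDegree ≤ ∑ _i : ι, D := Finset.sum_le_sum fun i _ => h _ _
    _ = Fintype.card ι * D := by simp

lemma coeff_det {K : Type*} [CommRing K] {ι : Type*} [Fintype ι] [DecidableEq ι] (M : Matrix ι ι K[X]) (D : ℕ)
    (h : ∀ i j, (M i j).natDegree ≤ D) :
    M.det.coeff (Fintype.card ι * D) = (M.map fun f => f.coeff D).det := by
  rw [Matrix.det_apply, Matrix.det_apply, finsetSum_coeff]
  refine Finset.sum_congr rfl fun s _ => ?_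
  rw [coeff_smul]
  congr 1
  have h1 := coeff_prod_of_natDegree_le (univ : Finset ι) (fun i => M (s i) i) D fun i _ => h _ _
  rw [card_univ] at h1
  rw [h1]
  rfl

lemma natDegree_hasseWitt {K : Type*} [CommRing K] {n : ℕ} (m p : ℕ) {F : MvPolynomial (Fin (n + 1)) K[X]}
    {G : MvPolynomial (Fin (n + 1)) K} {D : ℕ} (h : Top F G D) :
    (hasseWitt n m p F).det.natDegree ≤ Fintype.card (idx n m) * D := by
  refine natDegree_det_le _ D fun u v => ?_
  have h1 := (Top.monomial (K := K) (v : Fin (n + 1) →₀ ℕ)).mul h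
  rw [zero_add] at h1
  exact (h1 _).1

lemma coeff_hasseWitt {K : Type*} [CommRing K] {n : ℕ} (m p : ℕ) {F : MvPolynomial (Fin (n + 1)) K[X]}
    {G : MvPolynomial (Fin (n + 1)) K} {D : ℕ} (h : Top F G D) :
    (hasseWitt n m p F).det.coeff (Fintype.card (idx n m) * D) = (hasseWitt n m p G).det := by
  have h1 : ∀ v : idx n m, Top (MvPolynomial.monomial (v : Fin (n + 1) →₀ ℕ) 1 * F)
      (MvPolynomial.monomial (v : Fin (n + 1) →₀ ℕ) 1 * G) D := fun v => by
    have h1 := (Top.monomial (K := K) (v : Fin (n + 1) →₀ ℕ)).mul h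
    rwa [zero_add] at h1
  rw [coeff_det (hasseWitt n m p F) D fun u v => (h1 v _).1]
  congr 1
  ext u v
  exact (h1 v _).2

end Pool.Agent.H446.AP7
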